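import Pool.Agent.H51.PG.Main

/-! Partitionable Cayley graphs of finite abelian groups without weak pairs. -/

namespace Pool.Agent.Results.MP_ac13ce_co.AbelianCayley

open Pool.Agent.H51.PG

/-- Let `G` be a translation invariant graph on a finite abelian group, partitionable with
parameters `p` and `q` and without weak pairs. If `p ≤ 4`, or `q ≤ 4`, or `2/3 < p/q < 3/2` and
not both of `p`, `q` are divisible by 6, or `bnd p + bnd q < 24pq` (for instance
`(p^2 + 2p + q^2 + 2q) < 3pq` with `p`, `q` prime to 3), or one of `p`, `q` is odd and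
`6 ^ (min (p, q) / 2) ≤ pq`, then `G` is an odd hole, an odd antihole or `G_17`. -/
theorem result {Γ : Type*} [AddCommGroup Γ] [Fintype Γ] (G : SimpleGraph Γ)
    (hinv : ∀ g x y, G.Adj x y → G.Adj (g + x) (g + y)) (p q : ℕ) (hG : Partitionable G p q)
    (hw : NoWeakPair G)
    (h : p ≤ 4 ∨ q ≤ 4 ∨ (2 * p < 3 * q ∧ 2 * q < 3 * p ∧ ¬ (6 ∣ p ∧ 6 ∣ q)) ∨
      bnd p + bnd q < 24 * (p * q) ∨
      (¬ (Even p ∧ Even q) ∧ 6 ^ (min p q / 2) < p * q + 1)) :
    IsOddHole G ∨ IsOddHole Gᶜ ∨ Nonempty (G ≃g G17) := by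
  classical
  exact classification hinv hG hw h

end Pool.Agent.Results.MP_ac13ce_co.AbelianCayley
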