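import Pool.Agent.H51.CC.Main

/-! Partitionable graphs without weak pairs that have a critical clique or a critical stable
set, and those with `ω = 3` (or `α = 3`) in which two maximum cliques (stable sets) share two
vertices. -/

namespace Pool.Agent.Results.MP_ac13ce_co.CriticalClique

open Pool.Agent.H51.PG Pool.Agent.H51.CC

/-- Let `G` be a finite partitionable graph with parameters `p = α` and `q = ω` and without weak
pairs. Suppose that `G` has a critical clique (a maximum clique meeting at most `2ω - 2` other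
maximum cliques) or a critical stable set (a critical clique of the complement), or that `ω = 3`
and two different maximum cliques share two vertices, or that `α = 3` and two different maximum
stable sets share two vertices. Then `G` is an odd hole or an odd antihole. -/
theorem result {V : Type*} [Fintype V] (G : SimpleGraph V) (p q : ℕ)
    (hG : Partitionable G p q) (hw : NoWeakPair G)
    (h : (∃ K, IsCriticalClique G K) ∨ (∃ S, IsCriticalClique Gᶜ S) ∨
      (q = 3 ∧ ∃ K L, G.IsMaximumClique K ∧ G.IsMaximumClique L ∧ K ≠ L ∧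
        ∃ u v, u ≠ v ∧ u ∈ K ∧ u ∈ L ∧ v ∈ K ∧ v ∈ L) ∨
      (p = 3 ∧ ∃ S T, G.IsMaximumIndepSet S ∧ G.IsMaximumIndepSet T ∧ S ≠ T ∧
        ∃ u v, u ≠ v ∧ u ∈ S ∧ u ∈ T ∧ v ∈ S ∧ v ∈ T)) :
    IsOddHole G ∨ IsOddHole Gᶜ := by
  classical
  refine classification hG hw ?_
  have aux : ∀ K L : Finset V, (∃ u v, u ≠ v ∧ u ∈ K ∧ u ∈ L ∧ v ∈ K ∧ v ∈ L) →
      2 ≤ (K ∩ L).card := by
    rintro K L ⟨u, v, hne, h1, h2, h3, h4⟩
    rw [← Finset.card_pair hne]
    refine Finset.card_le_card ?_
    intro x hx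
    rw [Finset.mem_insert, Finset.mem_singleton] at hx
    rcases hx with rfl | rfl
    · exact Finset.mem_inter.mpr ⟨h1, h2⟩
    · exact Finset.mem_inter.mpr ⟨h3, h4⟩
  rcases h with h | h | ⟨hq, K, L, hK, hL, hne, h2⟩ | ⟨hp, S, T, hS, hT, hne, h2⟩
  · exact Or.inl h
  · exact Or.inr (Or.inl h)
  · exact Or.inr (Or.inr (Or.inl ⟨hq, K, L, hK, hL, hne, aux K L h2⟩))
  · exact Or.inr (Or.inr (Or.inr ⟨hp, S, T, hS, hT, hne, aux S T h2⟩))

end Pool.Agent.Results.MP_ac13ce_co.CriticalClique
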